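import Mathlib

/-!
# Choice of the parameters
-/

set_option autoImplicit false

open Filter Real

namespace Pool.Agent.Zk14.Par

theorem alg_id {a b e f d l : ℝ} (ha : 0 < a) (hb : 0 < b) (he : 0 < e) (hf : 0 < f) :
    8 * d * (5 * l) / (a * b / e / f) = 40 * (f / a) * (d * (e * l) / b) := by
  field_simp
  ring

theorem ev (c δ : ℝ) (hc : 0 < c) (hδ : 0 < δ) (r : ℕ) :
    ∃ d1 : ℕ, ∀ d : ℕ, d1 ≤ d → 3 ≤ d ∧ 2 * Real.log d ^ 2 ≤ c * √(d : ℝ) ∧
      r * Real.log d ≤ d ∧ 1 ≤ δ * √(d : ℝ) := by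
  have e1 : ∀ᶠ x : ℝ in atTop, 2 * Real.log x ^ 2 ≤ c * √x := by
    have h := (isLittleO_pow_log_id_atTop (n := 4)).bound (c := (c / 2) ^ 2) (by positivity)
    filter_upwards [h, eventually_ge_atTop 1] with x hx h1
    have hx0 : 0 ≤ x := by linarith
    have hl : 0 ≤ Real.log x := Real.log_nonneg h1
    rw [Real.norm_of_nonneg (by positivity), id, Real.norm_of_nonneg hx0] at hx
    have h2 : (Real.log x ^ 2) ^ 2 ≤ (c / 2 * √x) ^ 2 := by
      rw [mul_pow, Real.sq_sqrt hx0, ← pow_mul]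
      exact hx
    have h3 : Real.log x ^ 2 ≤ c / 2 * √x :=
      (pow_le_pow_iff_left₀ (by positivity) (by positivity) two_ne_zero).1 h2
    linarith
  have e2 : ∀ᶠ x : ℝ in atTop, r * Real.log x ≤ x := by
    have h := Real.isLittleO_log_id_atTop.bound (c := 1 / ((r : ℝ) + 1)) (by positivity)
    filter_upwards [h, eventually_ge_atTop 1] with x hx h1
    have hx0 : 0 ≤ x := by linarith
    have hl : 0 ≤ Real.log x := Real.log_nonneg h1
    rw [Real.norm_of_nonneg hl, id, Real.norm_of_nonneg hx0] at hx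
    have hr : (0 : ℝ) < (r : ℝ) + 1 := by positivity
    have h3 : ((r : ℝ) + 1) * Real.log x ≤ x := by
      calc ((r : ℝ) + 1) * Real.log x ≤ ((r : ℝ) + 1) * (1 / ((r : ℝ) + 1) * x) :=
            mul_le_mul_of_nonneg_left hx hr.le
        _ = x := by field_simp
    nlinarith
  have e3 : ∀ᶠ x : ℝ in atTop, 1 ≤ δ * √x := by
    filter_upwards [eventually_ge_atTop ((1 / δ) ^ 2)] with x hx
    have h1 : 1 / δ ≤ √x := Real.le_sqrt_of_sq_le hx
    calc (1 : ℝ) = δ * (1 / δ) := by field_simp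
      _ ≤ δ * √x := mul_le_mul_of_nonneg_left h1 hδ.le
  have h := (tendsto_natCast_atTop_atTop (R := ℝ)).eventually (e1.and (e2.and e3))
  obtain ⟨d1, hd1⟩ := eventually_atTop.1 h
  refine ⟨max d1 3, fun d hd => ?_⟩
  obtain ⟨h1, h2, h3⟩ := hd1 d ((le_max_left _ _).trans hd)
  exact ⟨(le_max_right _ _).trans hd, h1, h2, h3⟩

theorem log_le {d : ℕ} (hd : 2 ≤ d) : Real.log (1 + 12 * d) ≤ 5 * Real.log d := by
  have hd' : (2 : ℝ) ≤ d := by exact_mod_cast hd
  have h1 : (1 : ℝ) + 12 * d ≤ (d : ℝ) ^ 5 := by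
    have h2 : (2 : ℝ) ^ 4 ≤ (d : ℝ) ^ 4 := pow_le_pow_left₀ (by norm_num) hd' 4
    calc (1 : ℝ) + 12 * d ≤ 16 * d := by linarith
      _ ≤ (d : ℝ) ^ 4 * d := mul_le_mul_of_nonneg_right (by linarith) (by linarith)
      _ = _ := by ring
  calc Real.log (1 + 12 * d) ≤ Real.log ((d : ℝ) ^ 5) := Real.log_le_log (by positivity) h1
    _ = 5 * Real.log d := by rw [Real.log_pow]; norm_num

theorem first {r d d1 : ℕ} (hd : 2 ≤ d) (hd1 : d ≤ d1) {C : ℝ}
    (hC : 10 * √(d1 : ℝ) ^ r / Real.log 2 ^ (2 * r) ≤ C) :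
    2 * (d : ℝ) * Real.log (1 + 12 * d) ≤ C * (d * Real.log d ^ (2 * r + 1) / √(d : ℝ) ^ r) := by
  have hd' : (2 : ℝ) ≤ d := by exact_mod_cast hd
  have hd0 : (0 : ℝ) < d := by linarith
  have hs : 0 < √(d : ℝ) := Real.sqrt_pos.2 hd0
  have hsr : 0 < √(d : ℝ) ^ r := pow_pos hs r
  have hl2 : 0 < Real.log 2 := Real.log_pos (by norm_num)
  have hl : Real.log 2 ≤ Real.log d := Real.log_le_log (by norm_num) hd'
  have hl0 : 0 < Real.log d := hl2.trans_le hl
  have h1 : √(d : ℝ) ^ r ≤ √(d1 : ℝ) ^ r :=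
    pow_le_pow_left₀ hs.le (Real.sqrt_le_sqrt (by exact_mod_cast hd1)) r
  have h2 : Real.log 2 ^ (2 * r) ≤ Real.log d ^ (2 * r) := pow_le_pow_left₀ hl2.le hl _
  have h3 : 10 * √(d : ℝ) ^ r ≤ C * Real.log d ^ (2 * r) := by
    have h4 : 10 * √(d1 : ℝ) ^ r ≤ C * Real.log 2 ^ (2 * r) := by
      rwa [div_le_iff₀ (pow_pos hl2 _)] at hC
    have hC0 : 0 ≤ C := by
      refine le_trans ?_ hC
      positivity
    calc 10 * √(d : ℝ) ^ r ≤ 10 * √(d1 : ℝ) ^ r := by linarith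
      _ ≤ C * Real.log 2 ^ (2 * r) := h4
      _ ≤ _ := mul_le_mul_of_nonneg_left h2 hC0
  calc 2 * (d : ℝ) * Real.log (1 + 12 * d) ≤ 2 * (d : ℝ) * (5 * Real.log d) :=
        mul_le_mul_of_nonneg_left (log_le hd) (by positivity)
    _ = (10 * √(d : ℝ) ^ r) * (d * Real.log d / √(d : ℝ) ^ r) := by field_simp; ring
    _ ≤ (C * Real.log d ^ (2 * r)) * (d * Real.log d / √(d : ℝ) ^ r) :=
        mul_le_mul_of_nonneg_right h3 (by positivity)
    _ = _ := by ring

theorem param2 (r : ℕ) (A B δ : ℝ) (hA : 1 ≤ A) (hB : 1 ≤ B) (hδ : 0 < δ) :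
    ∃ C : ℝ, 0 ≤ C ∧ ∀ d : ℕ, 2 ≤ d →
      2 * (d : ℝ) * Real.log (1 + 12 * d) ≤ C * (d * Real.log d ^ (2 * r + 1) / √d ^ r) ∨
      ∃ L : ℕ, 2 ≤ (L : ℝ) ^ r ∧ 2 * Real.log ((L : ℝ) ^ r) ≤ d ∧
        A * Real.log ((L : ℝ) ^ r) * Real.log (2 * (L : ℝ) ^ r) / d * (r * L) ≤ δ ∧
        2 * B * (A * Real.log ((L : ℝ) ^ r) * Real.log (2 * (L : ℝ) ^ r) / d * (r * L)) ^ 2 * d
          ≤ 1 ∧
        8 * (d : ℝ) * Real.log (1 + 12 * d) / (L : ℝ) ^ r ≤
          C * (d * Real.log d ^ (2 * r + 1) / √d ^ r) := by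
  rcases Nat.eq_zero_or_pos r with rfl | hr
  · refine ⟨10, by norm_num, fun d hd => Or.inl ?_⟩
    exact first (d1 := d) hd le_rfl (by simp)
  have hr1 : (1 : ℝ) ≤ r := by exact_mod_cast hr
  have hr0 : (0 : ℝ) < r := by linarith
  have hA0 : (0 : ℝ) < A := by linarith
  have hB0 : (0 : ℝ) < B := by linarith
  set c : ℝ := 1 / (A * B * (r : ℝ) ^ 3) with hc
  have hc0 : 0 < c := by positivity
  have hc1 : c ≤ 1 := by
    rw [hc, div_le_one (by positivity)]
    have h1 : (1 : ℝ) ≤ A * B := by nlinarith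
    have h2 : (1 : ℝ) ≤ (r : ℝ) ^ 3 := one_le_pow₀ hr1
    nlinarith
  obtain ⟨d1, hd1⟩ := ev c δ hc0 hδ r
  refine ⟨max (40 * (2 / c) ^ r) (10 * √(d1 : ℝ) ^ r / Real.log 2 ^ (2 * r)),
    le_max_of_le_left (by positivity), fun d hd => ?_⟩
  rcases le_total d d1 with hdd | hdd
  · exact Or.inl (first hd hdd (le_max_right _ _))
  right
  obtain ⟨h3, hlog, hrd, hδd⟩ := hd1 d hdd
  have hd3 : (3 : ℝ) ≤ d := by exact_mod_cast h3
  have hd0 : (0 : ℝ) < d := by linarith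
  have hs0 : 0 < √(d : ℝ) := Real.sqrt_pos.2 hd0
  have hs2 : √(d : ℝ) ^ 2 = d := Real.sq_sqrt hd0.le
  have hl1 : 1 ≤ Real.log d := by
    rw [Real.le_log_iff_exp_le hd0]
    exact (Real.exp_one_lt_d9.le.trans (by norm_num)).trans hd3
  have hl0 : 0 < Real.log d := by linarith
  have hl2 : 1 ≤ Real.log d ^ 2 := one_le_pow₀ hl1
  set x : ℝ := c * √(d : ℝ) / Real.log d ^ 2 with hx
  have hx2 : 2 ≤ x := by
    rw [hx, le_div_iff₀ (by positivity)]
    exact hlog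
  have hx0 : 0 < x := by linarith
  set L : ℕ := ⌊x⌋₊ with hL
  have hLx : (L : ℝ) ≤ x := Nat.floor_le hx0.le
  have hL2 : 2 ≤ L := Nat.le_floor (by exact_mod_cast hx2)
  have hL2' : (2 : ℝ) ≤ L := by exact_mod_cast hL2
  have hL0 : (0 : ℝ) < L := by linarith
  have hLge : x / 2 ≤ L := by
    have := Nat.lt_floor_add_one x
    rw [← hL] at this
    linarith
  have hLs : (L : ℝ) ≤ √(d : ℝ) := by
    refine hLx.trans ?_
    rw [hx, div_le_iff₀ (by positivity)]
    nlinarith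
  have hlL : Real.log L ≤ Real.log d / 2 := by
    have h1 : Real.log L ≤ Real.log (√(d : ℝ)) := Real.log_le_log hL0 hLs
    rwa [Real.log_sqrt hd0.le] at h1
  have hlL2 : Real.log 2 ≤ Real.log L := Real.log_le_log (by norm_num) hL2'
  have hlL0 : 0 ≤ Real.log L := (Real.log_nonneg (by norm_num)).trans hlL2
  have hLr : 2 ≤ (L : ℝ) ^ r := by
    calc (2 : ℝ) ≤ L := hL2'
      _ = (L : ℝ) ^ 1 := (pow_one _).symm
      _ ≤ (L : ℝ) ^ r := pow_le_pow_right₀ (by linarith) hr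
  have hLr0 : 0 < (L : ℝ) ^ r := by linarith
  have e1 : Real.log ((L : ℝ) ^ r) = r * Real.log L := Real.log_pow _ _
  have e1' : Real.log ((L : ℝ) ^ r) ≤ r * Real.log d / 2 := by
    rw [e1]
    nlinarith
  have e1'' : 0 ≤ Real.log ((L : ℝ) ^ r) := Real.log_nonneg (by linarith)
  have e2 : Real.log (2 * (L : ℝ) ^ r) = Real.log 2 + r * Real.log L := by
    rw [Real.log_mul (by norm_num) hLr0.ne', e1]
  have e2' : Real.log (2 * (L : ℝ) ^ r) ≤ r * Real.log d := by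
    rw [e2]
    have h1 : Real.log 2 ≤ r * Real.log L := by nlinarith
    nlinarith
  have e2'' : 0 ≤ Real.log (2 * (L : ℝ) ^ r) := Real.log_nonneg (by linarith)
  set E : ℝ := A * Real.log ((L : ℝ) ^ r) * Real.log (2 * (L : ℝ) ^ r) / d * (r * L) with hE
  have hE0 : 0 ≤ E := by positivity
  have hE1 : E ≤ 1 / (2 * B * √(d : ℝ)) := by
    have h1 : A * Real.log ((L : ℝ) ^ r) * Real.log (2 * (L : ℝ) ^ r) ≤
        A * (r * Real.log d / 2) * (r * Real.log d) := by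
      refine mul_le_mul (mul_le_mul_of_nonneg_left e1' hA0.le) e2' e2'' (by positivity)
    calc E ≤ A * (r * Real.log d / 2) * (r * Real.log d) / d * (r * x) := by
          rw [hE]
          refine mul_le_mul (div_le_div_of_nonneg_right h1 hd0.le)
            (mul_le_mul_of_nonneg_left hLx hr0.le) (by positivity) (by positivity)
      _ = 1 / (2 * B * √(d : ℝ)) := by
          rw [hx, hc]
          nth_rewrite 3 [← hs2]
          field_simp
  refine ⟨L, hLr, ?_, ?_, ?_, ?_⟩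
  · linarith
  · refine hE1.trans ?_
    rw [div_le_iff₀ (by positivity)]
    nlinarith
  · have h1 : E ^ 2 ≤ (1 / (2 * B * √(d : ℝ))) ^ 2 := pow_le_pow_left₀ hE0 hE1 2
    calc 2 * B * E ^ 2 * d ≤ 2 * B * (1 / (2 * B * √(d : ℝ))) ^ 2 * d := by
          gcongr
      _ = 1 / (2 * B) := by
          rw [div_pow, mul_pow, hs2]
          field_simp
      _ ≤ 1 := by
          rw [div_le_one (by positivity)]
          linarith
  · have h1 : (x / 2) ^ r ≤ (L : ℝ) ^ r := pow_le_pow_left₀ (by positivity) hLge r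
    have h2 : 0 < (x / 2) ^ r := by positivity
    calc 8 * (d : ℝ) * Real.log (1 + 12 * d) / (L : ℝ) ^ r
        ≤ 8 * (d : ℝ) * (5 * Real.log d) / (x / 2) ^ r := by
          refine div_le_div₀ (by positivity) ?_ h2 h1
          exact mul_le_mul_of_nonneg_left (log_le hd) (by positivity)
      _ = 40 * (2 / c) ^ r * (d * Real.log d ^ (2 * r + 1) / √(d : ℝ) ^ r) := by
          have q1 : (Real.log d ^ 2) ^ r = Real.log d ^ (2 * r) := (pow_mul _ _ _).symm
          have q2 : Real.log d ^ (2 * r + 1) = Real.log d ^ (2 * r) * Real.log d := pow_succ _ _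
          have q3 : (x / 2) ^ r = c ^ r * √(d : ℝ) ^ r / Real.log d ^ (2 * r) / 2 ^ r := by
            rw [hx, div_pow, div_pow, mul_pow, q1]
          have q4 : 0 < Real.log d ^ (2 * r) := by positivity
          have q5 : 0 < c ^ r := by positivity
          have q6 : 0 < √(d : ℝ) ^ r := by positivity
          have q7 : (2 / c) ^ r = 2 ^ r / c ^ r := div_pow _ _ _
          have q8 : (0 : ℝ) < 2 ^ r := by positivity
          rw [q3, q2, q7]
          exact alg_id q5 q6 q4 q8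
      _ ≤ _ := mul_le_mul_of_nonneg_right (le_max_left _ _) (by positivity)

end Pool.Agent.Zk14.Par
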